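import Mathlib

/-! Small lemmas (helper364) for the strings of consecutive primes. -/

set_option autoImplicit false

namespace Pool.Agent.U364.ST

open Polynomial

theorem adm_two (P : ℤ → ℤ) (a b : ℤ) (h : IsCoprime (P a) (P b)) (p : ℕ) (hp : p.Prime) :
    ∃ n : ℤ, ¬ (p : ℤ) ∣ P n := by
  by_contra hcon
  push Not at hcon
  have h1 := h.isUnit_of_dvd' (hcon a) (hcon b)
  rw [Int.isUnit_iff] at h1
  have := hp.one_lt
  omega

/-- admissibility of `P (h X)` -/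
theorem adm_h (P : ℤ[X]) (h : ℕ) (p : ℕ) (hp : p.Prime) (h0 : (p : ℤ) ∣ h → ¬ (p : ℤ) ∣ P.eval 0)
    (h1 : ¬ (p : ℤ) ∣ h → ∃ t : ℤ, ¬ (p : ℤ) ∣ t ∧ ¬ (p : ℤ) ∣ P.eval t) :
    ∃ n : ℤ, ¬ (p : ℤ) ∣ n * P.eval ((h : ℤ) * n) := by
  have hpZ : Prime (p : ℤ) := Nat.prime_iff_prime_int.1 hp
  by_cases hph : (p : ℤ) ∣ (h : ℤ)
  · refine ⟨1, fun hd => h0 hph ?_⟩
    rw [one_mul, mul_one] at hd
    have h2 : (h : ℤ) - 0 ∣ P.eval (h : ℤ) - P.eval 0 := sub_dvd_eval_sub _ _ _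
    rw [sub_zero] at h2
    have h3 := dvd_sub hd (hph.trans h2)
    rwa [sub_sub_cancel] at h3
  · obtain ⟨t, ht, hPt⟩ := h1 hph
    obtain ⟨x, y, hxy⟩ := (Prime.coprime_iff_not_dvd hpZ).2 hph
    refine ⟨y * t, fun hd => ?_⟩
    have h2 : (h : ℤ) * (y * t) - t = p * (-(x * t)) := by
      have : y * (h : ℤ) = 1 - x * p := by linarith
      calc (h : ℤ) * (y * t) - t = (y * h) * t - t := by ring
        _ = p * (-(x * t)) := by rw [this]; ring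
    rcases hpZ.dvd_or_dvd hd with h3 | h3
    · rcases hpZ.dvd_or_dvd h3 with h4 | h4
      · have h5 : (p : ℤ) ∣ 1 := by
          rw [← hxy]
          exact dvd_add (Dvd.intro_left _ rfl) (h4.mul_right _)
        exact hpZ.not_isUnit (isUnit_of_dvd_one h5)
      · exact ht h4
    · apply hPt
      have h4 : (h : ℤ) * (y * t) - t ∣ P.eval ((h : ℤ) * (y * t)) - P.eval t := sub_dvd_eval_sub _ _ _
      have h5 : (p : ℤ) ∣ P.eval ((h : ℤ) * (y * t)) - P.eval t := (Dvd.intro _ h2.symm).trans h4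
      have h6 := dvd_sub h3 h5
      rwa [sub_sub_cancel] at h6

/-- a prime divides no number which is `1` or `-1` -/
theorem not_dvd_unit (p : ℕ) (hp : p.Prime) (u : ℤ) (hu : u = 1 ∨ u = -1) : ¬ (p : ℤ) ∣ u := by
  intro hd
  have h1 : IsUnit (p : ℤ) := isUnit_of_dvd_unit hd (Int.isUnit_iff.2 hu)
  exact (Nat.prime_iff_prime_int.1 hp).not_isUnit h1

/-- an odd prime divides no power of two -/
theorem not_dvd_two_pow (p : ℕ) (hp : p.Prime) (h2 : p ≠ 2) (k : ℕ) : ¬ (p : ℤ) ∣ 2 ^ k := by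
  intro hd
  have h1 : (p : ℤ) ∣ ((2 ^ k : ℕ) : ℤ) := by exact_mod_cast hd
  have h3 : p ∣ 2 := hp.dvd_of_dvd_pow (by exact_mod_cast h1 : p ∣ 2 ^ k)
  exact h2 ((Nat.prime_dvd_prime_iff_eq hp Nat.prime_two).1 h3)

end Pool.Agent.U364.ST
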