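import Pool.Agent.R498.MP.PU9
import Pool.Agent.R498.MP.LinC
import Pool.Agent.Helper32K9.Str.Prop

/-! Strings of consecutive primes with almost prime companions, uniformly in the polynomial: a positive proportion of
the patterns (helper364). -/

set_option autoImplicit false

namespace Pool.Agent.U364.ST

open Finset Filter Polynomial

/-- the pattern `H` occurs at least `N / (log N) ^ B` times in `(N, 2 N]` -/
def OccU (V : ℕ → ℝ → ℕ → Prop) (q a r : ℕ) (δ : ℝ) (B N : ℕ) (H : Finset ℕ) : Prop :=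
  ∃ F : Finset ℕ, (N : ℝ) ≤ Real.log N ^ B * F.card ∧
    ∀ n ∈ F, N < n ∧ n + H.sup id ≤ 2 * N ∧ (∀ y ≤ H.sup id, (n + y).Prime ↔ y ∈ H) ∧
      ∀ h ∈ H, n + h ≡ a [MOD q] ∧ V r ((N : ℝ) ^ δ) (n + h)

/-- **A positive proportion of the patterns, uniformly in the polynomial.** -/
theorem uni_prop (D q : ℕ) (hq : Squarefree q) (m : ℕ) (hm : 1 ≤ m) :
    ∃ (C B : ℕ) (δ : ℝ), 0 < C ∧ 0 < δ ∧ ∀ A : ℕ, ∃ r : ℕ, ∀ T : Finset ℕ, C ≤ T.card →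
      ∀ᶠ N : ℕ in atTop, ∀ f : ℤ[X], f.natDegree ≤ D →
      (∀ p : ℕ, p.Prime → ∃ n : ℤ, ¬ (p : ℤ) ∣ n * f.eval n) →
      (∀ x : ℤ, |x| ≤ 2 * N → |f.eval x| ≤ (N : ℤ) ^ A) →
      (∀ x : ℤ, x ≠ 0 → |x| ≤ T.sup id → f.eval x ≠ 0) →
      ∀ a : ℕ, IsCoprime ((a : ℤ) * f.eval (a : ℤ)) (q : ℤ) → ∀ V : ℕ → ℝ → ℕ → Prop,
      (∀ (r : ℕ) (w : ℝ) (p : ℕ), p.Prime → p ≡ a [MOD q] → Pool.Agent.R498.MP.APZ r w (f.eval (p : ℤ)) →
        V r w p) →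
      T.card.choose m ≤ C * {H : Finset ℕ | H ⊆ T ∧ H.card = m ∧ OccU V q a r δ B N H}.ncard := by
  classical
  obtain ⟨K, B, δ, hδ, hmain⟩ := Pool.Agent.R498.MP.stringsUR D q hq m
  obtain ⟨K', hK'⟩ : ∃ K', K' = max K m := ⟨_, rfl⟩
  have hKK' : K ≤ K' := by omega
  have hmK' : m ≤ K' := by omega
  refine ⟨max K' (K'.choose m), B, δ, by omega, hδ, fun A => ?_⟩
  obtain ⟨r, hr⟩ := hmain A
  refine ⟨r, fun T hT => ?_⟩
  have h2 : ∀ᶠ N : ℕ in atTop, ∀ S ∈ T.powerset.filter (fun S => K ≤ S.card),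
      ∀ f : ℤ[X], f.natDegree ≤ D →
      (∀ p : ℕ, p.Prime → ∃ n : ℤ, ¬ (p : ℤ) ∣ n * f.eval n) →
      (∀ x : ℤ, |x| ≤ 2 * N → |f.eval x| ≤ (N : ℤ) ^ A) →
      (∀ x : ℤ, x ≠ 0 → |x| ≤ S.sup id → f.eval x ≠ 0) →
      ∀ a : ℕ, (∀ p : ℕ, p.Prime → p ∣ q → ¬ (p : ℤ) ∣ (a : ℤ) * f.eval (a : ℤ)) →
      ∃ H ⊆ S, m ≤ H.card ∧ ∃ T : Finset ℕ, (N : ℝ) ≤ Real.log N ^ B * T.card ∧
        ∀ n ∈ T, N < n ∧ n + S.sup id ≤ 2 * N ∧ (∀ y ≤ S.sup id, (n + y).Prime ↔ y ∈ H) ∧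
          ∀ h ∈ H, n + h ≡ a [MOD q] ∧ Pool.Agent.R498.MP.APZ r ((N : ℝ) ^ δ) (f.eval ((n + h : ℕ) : ℤ)) := by
    rw [Filter.eventually_all_finset]
    intro S hS
    exact hr S (Finset.mem_filter.1 hS).2
  filter_upwards [h2] with N hN
  intro f hD hadm hfA hz a ha V hV
  have key := Pool.Agent.Helper32K9.Str.proportion hm hmK' T ((le_max_left _ _).trans hT)
    (fun H => ∃ S ⊆ T, H ⊆ S ∧ ∃ F : Finset ℕ, (N : ℝ) ≤ Real.log N ^ B * F.card ∧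
        ∀ n ∈ F, N < n ∧ n + S.sup id ≤ 2 * N ∧ (∀ y ≤ S.sup id, (n + y).Prime ↔ y ∈ H) ∧
          ∀ h ∈ H, n + h ≡ a [MOD q] ∧ Pool.Agent.R498.MP.APZ r ((N : ℝ) ^ δ) (f.eval ((n + h : ℕ) : ℤ)))
    (OccU V q a r δ B N) ?_ ?_
  · exact key.trans (Nat.mul_le_mul_right _ (le_max_right _ _))
  · intro S hS hSK
    obtain ⟨H, h3, h4, h5⟩ := hN S (Finset.mem_filter.2 ⟨Finset.mem_powerset.2 hS, by omega⟩) f hD hadm hfA
      (fun x hx hxS => hz x hx (hxS.trans (by exact_mod_cast Finset.sup_mono hS))) a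
      (fun p hp hpq => Pool.Agent.R498.MP.cop_to _ q ha p hp hpq)
    exact ⟨H, h3, h4, S, hS, h3, h5⟩
  · rintro H H' ⟨S, hS, hHS, F, h3, h4⟩ hH' hcard hy
    have h7 : H'.sup id ≤ S.sup id := Finset.sup_mono (hH'.trans hHS)
    refine ⟨F, h3, fun n hn => ?_⟩
    obtain ⟨g1, g2, g3, g4⟩ := h4 n hn
    refine ⟨g1, by omega, fun y hys => ⟨fun hp => ?_, fun hyH => (g3 y (by omega)).2 (hH' hyH)⟩,
      fun h hh => ?_⟩
    · exact hy y ((g3 y (by omega)).1 hp) hys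
    · obtain ⟨g5, g6⟩ := g4 h (hH' hh)
      have hle : h ≤ S.sup id := Finset.le_sup (f := id) (hHS (hH' hh))
      exact ⟨g5, hV _ _ _ ((g3 h hle).2 (hH' hh)) g5 g6⟩

/-- **The multiples of the primes.** The polynomial `P (h X)`, uniformly in `h`. -/
theorem mult_prop (P : ℤ[X]) (hz : ∀ n : ℤ, n ≠ 0 → P.eval n ≠ 0) (q : ℕ) (hq : Squarefree q) (m : ℕ) (hm : 1 ≤ m) :
    ∃ (C B : ℕ) (δ : ℝ), 0 < C ∧ 0 < δ ∧ ∀ A : ℕ, ∃ r : ℕ, ∀ T : Finset ℕ, C ≤ T.card →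
      ∀ᶠ N : ℕ in atTop, ∀ h : ℕ, 1 ≤ h → h ≤ N ^ A →
      (∀ p : ℕ, p.Prime → ∃ n : ℤ, ¬ (p : ℤ) ∣ n * P.eval ((h : ℤ) * n)) →
      ∀ a : ℕ, IsCoprime ((a : ℤ) * P.eval ((h : ℤ) * (a : ℤ))) (q : ℤ) → ∀ V : ℕ → ℝ → ℕ → Prop,
      (∀ (r : ℕ) (w : ℝ) (p : ℕ), p.Prime → p ≡ a [MOD q] →
        Pool.Agent.R498.MP.APZ r w (P.eval ((h : ℤ) * (p : ℤ))) → V r w p) →
      T.card.choose m ≤ C * {H : Finset ℕ | H ⊆ T ∧ H.card = m ∧ OccU V q a r δ B N H}.ncard := by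
  obtain ⟨C₀, B, δ, hC, hδ, hmain⟩ := uni_prop P.natDegree q hq m hm
  obtain ⟨Kf, D, hKD⟩ := Pool.Agent.W123.RU.Poly.eval_bound P
  refine ⟨C₀, B, δ, hC, hδ, fun A => ?_⟩
  obtain ⟨r, hr⟩ := hmain ((A + 3) * D + 1)
  refine ⟨r, fun T hT => ?_⟩
  filter_upwards [hr T hT, eventually_ge_atTop (Kf + 3)] with N hN hN3
  intro h hh1 hhA hadm a ha V hV
  have hev : ∀ n : ℤ, (P.comp (C (h : ℤ) * X)).eval n = P.eval ((h : ℤ) * n) := fun n => by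
    simp [eval_comp]
  refine hN (P.comp (C (h : ℤ) * X)) ?_ (fun p hp => ?_) (fun x hx => ?_) (fun x hx0 _ => ?_) a (by rw [hev]; exact ha) V
    (fun r w p hp hpa hAP => hV r w p hp hpa (by rw [hev] at hAP; exact hAP))
  · refine natDegree_comp_le.trans ?_
    calc P.natDegree * (C (h : ℤ) * X : ℤ[X]).natDegree ≤ P.natDegree * 1 :=
          Nat.mul_le_mul_left _ ((natDegree_C_mul_le _ _).trans natDegree_X_le)
      _ = P.natDegree := mul_one _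
  · obtain ⟨n, hn⟩ := hadm p hp
    exact ⟨n, by rwa [hev]⟩
  · rw [hev]
    have h3 : (3 : ℝ) ≤ N := by exact_mod_cast (by omega : 3 ≤ N)
    have hKN : (Kf : ℝ) ≤ N := by exact_mod_cast (by omega : Kf ≤ N)
    have hhA' : (h : ℝ) ≤ (N : ℝ) ^ A := by exact_mod_cast hhA
    have h7 : (1 : ℝ) ≤ (N : ℝ) ^ A := one_le_pow₀ (by linarith)
    have h0 : (0 : ℝ) ≤ h := Nat.cast_nonneg h
    have hx' : |(x : ℝ)| ≤ 2 * N := by exact_mod_cast hx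
    have hy : 1 + |(((h : ℤ) * x : ℤ) : ℝ)| ≤ (N : ℝ) ^ (A + 3) := by
      push_cast
      rw [abs_mul, abs_of_nonneg h0]
      have h8 : (h : ℝ) * |(x : ℝ)| ≤ (N : ℝ) ^ A * (2 * N) :=
        mul_le_mul hhA' hx' (abs_nonneg _) (by positivity)
      have h9 : (N : ℝ) ^ (A + 3) = (N : ℝ) ^ A * (N * (N * N)) := by ring
      rw [h9]
      have h10 : (9 : ℝ) ≤ N * N := by nlinarith
      have h11 : (N : ℝ) * 9 ≤ N * (N * N) := mul_le_mul_of_nonneg_left h10 (by linarith)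
      have h12 : (N : ℝ) ^ A * (N * 9) ≤ (N : ℝ) ^ A * (N * (N * N)) := mul_le_mul_of_nonneg_left h11 (by linarith)
      nlinarith
    have hb := hKD ((h : ℤ) * x)
    have h13 : |((P.eval ((h : ℤ) * x) : ℤ) : ℝ)| ≤ (N : ℝ) ^ ((A + 3) * D + 1) := by
      calc |((P.eval ((h : ℤ) * x) : ℤ) : ℝ)| ≤ Kf * (1 + |(((h : ℤ) * x : ℤ) : ℝ)|) ^ D := hb
        _ ≤ N * ((N : ℝ) ^ (A + 3)) ^ D :=
          mul_le_mul hKN (pow_le_pow_left₀ (by positivity) hy _) (by positivity) (by linarith)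
        _ = (N : ℝ) ^ ((A + 3) * D + 1) := by
          rw [← pow_mul]
          ring
    exact_mod_cast h13
  · rw [hev]
    apply hz
    have : (h : ℤ) ≠ 0 := by exact_mod_cast (by omega : h ≠ 0)
    exact mul_ne_zero this hx0

end Pool.Agent.U364.ST
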