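import Pool.Agent.U288.SP.Cl0
import Pool.Agent.U288.SP.Cl5
import Pool.Agent.R498.MP.LinC
import Pool.Agent.Helper32K9.Str.Prop

/-! Wrappers (helper364) for the theorems on strings of consecutive primes with almost prime companions:
an arbitrary property of the almost prime value. -/

set_option autoImplicit false

namespace Pool.Agent.U364.ST

open Finset Filter Polynomial

open Classical in
/-- the patterns `0 = h 0 < h 1 < ... < h k ≤ X` with `h j - h i + σ` prime for all `i < j` (no condition if `σ = 0`) -/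
noncomputable def patterns (σ : ℤ) (k X : ℕ) : Finset (Fin (k + 1) → ℕ) :=
  (Fintype.piFinset (fun _ : Fin (k + 1) => range (X + 1))).filter (fun h => h 0 = 0 ∧ StrictMono h ∧
    ∀ i j, i < j → σ ≠ 0 → ((h j : ℤ) - h i + σ).toNat.Prime)

/-- the number of the conditions -/
def conditions (σ : ℤ) (k : ℕ) : ℕ := if σ = 0 then 0 else k * (k + 1) / 2

/-- occurrence of the pattern `h` in `(N, 2 N]` with the property `V` -/
def OccP (V : ℕ → ℝ → ℕ → Prop) {k : ℕ} (q a r : ℕ) (δ : ℝ) (l b N : ℕ) (h : Fin (k + 1) → ℕ) : Prop :=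
  ∃ n d : ℕ, 1 ≤ d ∧ (d : ℝ) ≤ Real.log N ^ b ∧ ∀ j < l, N < n + j * d ∧ n + j * d + h (Fin.last k) ≤ 2 * N ∧
    (∀ y ≤ h (Fin.last k), (n + j * d + y).Prime ↔ ∃ i, y = h i) ∧
    ∀ i, n + j * d + h i ≡ a [MOD q] ∧ V r ((N : ℝ) ^ δ) (n + j * d + h i)

open Classical in
theorem gen_shifts (f : ℤ[X]) (hz : ∀ n : ℤ, n ≠ 0 → f.eval n ≠ 0)
    (hadm : ∀ p : ℕ, p.Prime → ∃ n : ℤ, ¬ (p : ℤ) ∣ n * f.eval n) (q a : ℕ) (hq : Squarefree q)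
    (ha : IsCoprime ((a : ℤ) * f.eval (a : ℤ)) (q : ℤ)) (k : ℕ)
    (σ : ℤ) (hσ : σ = 0 ∨ σ = 1 ∨ σ = -1) (V : ℕ → ℝ → ℕ → Prop) (n₀ : ℕ)
    (hV : ∀ (r : ℕ) (w : ℝ) (p : ℕ), p.Prime → p ≡ a [MOD q] → n₀ ≤ p →
      Pool.Agent.R498.MP.AP r w (f.eval (p : ℤ)) → V r w p) :
    ∃ (c c' δ : ℝ) (r : ℕ), 0 < c ∧ 0 < δ ∧ ∀ᶠ X : ℕ in atTop,
      ((patterns σ k X).card : ℝ) ≤ c' * ((X : ℝ) ^ k / Real.log X ^ conditions σ k) ∧
      ∀ l : ℕ, ∃ b : ℕ, ∀ᶠ N : ℕ in atTop,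
        c * ((X : ℝ) ^ k / Real.log X ^ conditions σ k) ≤
          (((patterns σ k X).filter (fun h => OccP V q a r δ l b N h)).card : ℝ) := by
  obtain ⟨c, c', δ, r, hc, hδ, h⟩ := Pool.Agent.U288.SP.string_shifts f hz hadm q a hq
    (fun p hp hpq => Pool.Agent.R498.MP.cop_to _ q ha p hp hpq) k σ hσ
  rw [Pool.Agent.U288.SP.edg_const] at h
  refine ⟨c, c', δ, r, hc, hδ, ?_⟩
  filter_upwards [h] with X hX
  refine ⟨hX.1, fun l => ?_⟩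
  obtain ⟨b, hb⟩ := hX.2 l
  refine ⟨b, ?_⟩
  filter_upwards [hb, eventually_ge_atTop n₀] with N hN hNn
  refine hN.trans ?_
  have : ((Pool.Agent.U288.SP.shifts (fun _ _ : Fin (k + 1) => σ) X).filter
      (fun h => Pool.Agent.U288.SP.StrOcc f q a r δ l b N h)).card ≤
      ((patterns σ k X).filter (fun h => OccP V q a r δ l b N h)).card := by
    apply card_le_card
    intro z hz
    rw [mem_filter] at hz ⊢
    refine ⟨hz.1, ?_⟩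
    obtain ⟨n, d, h1, h2, h3⟩ := hz.2
    have hmono : StrictMono z := (mem_filter.1 hz.1).2.2.1
    refine ⟨n, d, h1, h2, fun j hj => ?_⟩
    obtain ⟨e1, e2, e3, e4⟩ := h3 j hj
    refine ⟨e1, e2, e3, fun i => ⟨(e4 i).1, ?_⟩⟩
    exact hV _ _ _ ((e3 (z i) (hmono.monotone (Fin.le_last i))).2 ⟨i, rfl⟩) (e4 i).1 (by omega) (e4 i).2
  exact_mod_cast this

/-- the primes in `[x, x + max H]` are exactly the numbers `x + s`, `s ∈ H` -/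
def PrimePattern (H : Finset ℕ) (x : ℕ) : Prop := ∀ y ≤ H.sup id, (x + y).Prime ↔ y ∈ H

/-- occurrence of the set `H` at all the terms of a narrow progression in `(N, 2 N]` -/
def OccS (V : ℕ → ℝ → ℕ → Prop) (q c r : ℕ) (δ : ℝ) (l B N : ℕ) (H : Finset ℕ) : Prop :=
  ∃ n d : ℕ, 1 ≤ d ∧ (d : ℝ) ≤ Real.log N ^ B ∧ ∀ j < l, N < n + j * d ∧ n + j * d + H.sup id ≤ 2 * N ∧
    PrimePattern H (n + j * d) ∧
    ∀ s ∈ H, n + j * d + s ≡ c [MOD q] ∧ V r ((N : ℝ) ^ δ) (n + j * d + s)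

theorem gen_prop (f : ℤ[X]) (hz : ∀ n : ℤ, n ≠ 0 → f.eval n ≠ 0)
    (hadm : ∀ p : ℕ, p.Prime → ∃ n : ℤ, ¬ (p : ℤ) ∣ n * f.eval n) (q c : ℕ) (hq : Squarefree q)
    (hc : IsCoprime ((c : ℤ) * f.eval (c : ℤ)) (q : ℤ)) (m : ℕ) (hm : 1 ≤ m) (V : ℕ → ℝ → ℕ → Prop) (n₀ : ℕ)
    (hV : ∀ (r : ℕ) (w : ℝ) (p : ℕ), p.Prime → p ≡ c [MOD q] → n₀ ≤ p →
      Pool.Agent.R498.MP.AP r w (f.eval (p : ℤ)) → V r w p) :
    ∃ (C r : ℕ) (δ : ℝ), 0 < C ∧ 0 < δ ∧ ∀ T : Finset ℕ, C ≤ T.card → ∀ l : ℕ,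
    ∃ B : ℕ, ∀ᶠ N : ℕ in atTop,
      T.card.choose m ≤ C * {H : Finset ℕ | H ⊆ T ∧ H.card = m ∧ OccS V q c r δ l B N H}.ncard := by
  obtain ⟨C, r, δ, hC, hδ, hmain⟩ := Pool.Agent.Helper32K9.Str.strings_prop f hz hadm q c hq
    (fun p hp hpq => Pool.Agent.R498.MP.cop_to _ q hc p hp hpq) m hm
  refine ⟨C, r, δ, hC, hδ, fun T hT l => ?_⟩
  obtain ⟨B, hB⟩ := hmain T hT l
  refine ⟨B, ?_⟩
  filter_upwards [hB, eventually_ge_atTop n₀] with N hN hNn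
  refine hN.trans (Nat.mul_le_mul_left _ (Set.ncard_le_ncard ?_ ?_))
  · rintro H ⟨hHT, hHm, n, d, h3, h4, h5⟩
    refine ⟨hHT, hHm, n, d, h3, h4, fun j hj => ?_⟩
    obtain ⟨g1, g2, g3, g4⟩ := h5 j hj
    refine ⟨g1, g2, g3, fun s hs => ?_⟩
    have hsup : s ≤ H.sup id := Finset.le_sup (f := id) hs
    obtain ⟨gc, g5⟩ := g4 s hs
    exact ⟨gc, hV _ _ _ ((g3 s hsup).2 hs) gc (by omega) g5⟩
  · apply (T.powersetCard m).finite_toSet.subset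
    rintro H ⟨h1, h2, -⟩
    exact Finset.mem_coe.2 (Finset.mem_powersetCard.2 ⟨h1, h2⟩)

end Pool.Agent.U364.ST
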