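import Pool.Agent.R498.MP.StrC
import Pool.Agent.Helper32K9.Str.Prop

/-! Strings of consecutive primes of a residue class with almost prime companions (helper364): the polynomial may
have integer zeros which are not divisible by the modulus, for instance `(X + 2) (X + 6)`, modulus `30`. -/

set_option autoImplicit false

namespace Pool.Agent.U364.ST

open Finset Filter Polynomial

theorem sup_mul (q : ℕ) (T : Finset ℕ) : (T.image (fun t => q * t)).sup id = q * T.sup id := by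
  apply le_antisymm
  · apply Finset.sup_le
    intro x hx
    obtain ⟨t, ht, rfl⟩ := mem_image.1 hx
    exact Nat.mul_le_mul_left _ (Finset.le_sup (f := id) ht)
  · rcases T.eq_empty_or_nonempty with h | h
    · subst h
      simp
    · obtain ⟨t, ht, h1⟩ := Finset.exists_mem_eq_sup T h id
      rw [h1]
      exact Finset.le_sup (f := id) (mem_image_of_mem (fun t => q * t) ht)

/-- strings of consecutive primes of the class `a` modulo `q` -/
theorem cls_strings (f : ℤ[X]) (hf : f ≠ 0)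
    (hadm : ∀ p : ℕ, p.Prime → ∃ n : ℤ, ¬ (p : ℤ) ∣ n * f.eval n)
    (q a : ℕ) (hq : Squarefree q)
    (ha : ∀ p : ℕ, p.Prime → p ∣ q → ¬ (p : ℤ) ∣ (a : ℤ) * f.eval (a : ℤ))
    (hroot : ∀ z : ℤ, z ≠ 0 → (q : ℤ) ∣ z → f.eval z ≠ 0) (m : ℕ) :
    ∃ (K r : ℕ) (δ : ℝ), 0 < δ ∧ ∀ T : Finset ℕ, K ≤ T.card → ∀ l : ℕ,
      ∃ B : ℕ, ∀ᶠ N : ℕ in atTop, ∃ H ⊆ T, m ≤ H.card ∧ ∃ n d : ℕ, 1 ≤ d ∧
        (d : ℝ) ≤ Real.log N ^ B ∧ ∀ j < l, N < n + j * d ∧ n + j * d + q * T.sup id ≤ 2 * N ∧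
          (∀ y ≤ T.sup id, (n + j * d + q * y).Prime ↔ y ∈ H) ∧
          ∀ h ∈ H, n + j * d + q * h ≡ a [MOD q] ∧
            Pool.Agent.R498.MP.AP r ((N : ℝ) ^ δ) (f.eval ((n + j * d + q * h : ℕ) : ℤ)) := by
  classical
  have hq0 : 0 < q := Nat.pos_of_ne_zero hq.ne_zero
  obtain ⟨K, r, δ, hδ, hmain⟩ := Pool.Agent.R498.MP.stringsC f hf hadm q a hq ha m
  obtain ⟨n₁, hn₁⟩ := Pool.Agent.Y677.RSZ.ne_zero_ev f hf
  refine ⟨K, r, δ, hδ, fun T hT l => ?_⟩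
  have hinj : Function.Injective (fun t : ℕ => q * t) := fun x y h => Nat.eq_of_mul_eq_mul_left hq0 h
  have hcard : (T.image (fun t => q * t)).card = T.card := card_image_of_injective _ hinj
  obtain ⟨B, hB⟩ := hmain (T.image (fun t => q * t)) (by rw [hcard]; exact hT) l
  refine ⟨B, ?_⟩
  filter_upwards [hB, eventually_ge_atTop n₁] with N hN hN1
  obtain ⟨H, hH, hHm, n, d, h1, h2, h3, h4, h5⟩ := hN
  rw [sup_mul] at h2 h5
  have hHq : ∀ h ∈ H, ∃ t ∈ T, q * t = h := fun h hh => mem_image.1 (hH hh)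
  refine ⟨T.filter (fun t => q * t ∈ H), filter_subset _ _, ?_, n, d, h3, h4, fun j hj => ?_⟩
  · have h6 : H.card ≤ (T.filter (fun t => q * t ∈ H)).card := by
      rw [← card_image_of_injective (T.filter (fun t => q * t ∈ H)) hinj]
      apply card_le_card
      intro h hh
      obtain ⟨t, ht, rfl⟩ := hHq h hh
      exact mem_image_of_mem (fun t => q * t) (mem_filter.2 ⟨ht, hh⟩)
    omega
  · obtain ⟨g1, g2⟩ := h5 j hj
    have h6 : j * d ≤ l * d := Nat.mul_le_mul_right _ hj.le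
    refine ⟨by omega, by omega, fun y hy => ⟨fun hp => ?_, fun hyH => ?_⟩, fun h hh => ?_⟩
    · by_contra hcon
      rw [mem_filter, not_and] at hcon
      have hyT : q * y ≤ q * T.sup id := Nat.mul_le_mul_left _ hy
      have hyH : q * y ∉ H := by
        intro hyH
        obtain ⟨t, ht, h7⟩ := hHq _ hyH
        have h8 : t = y := hinj h7
        subst h8
        exact hcon ht hyH
      refine g2 (q * y) hyT hyH (fun h hh hhy => ?_) hp
      obtain ⟨t, -, rfl⟩ := mem_image.1 hh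
      apply hroot
      · intro h0
        apply hhy
        have : ((q * t : ℕ) : ℤ) = ((q * y : ℕ) : ℤ) := by linarith
        exact_mod_cast this
      · refine ⟨(t : ℤ) - y, ?_⟩
        push_cast
        ring
    · exact (g1 (q * y) (mem_filter.1 hyH).2).1
    · obtain ⟨-, g3, g4, g5⟩ := g1 (q * h) (mem_filter.1 hh).2
      refine ⟨g3, hn₁ _ ?_, g4, g5⟩
      omega

/-- occurrence of the set `H` of multipliers: consecutive primes of the class -/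
def OccC (V : ℕ → ℝ → ℕ → Prop) (q a r : ℕ) (δ : ℝ) (l B N : ℕ) (H : Finset ℕ) : Prop :=
  ∃ n d : ℕ, 1 ≤ d ∧ (d : ℝ) ≤ Real.log N ^ B ∧ ∀ j < l, N < n + j * d ∧ n + j * d + q * H.sup id ≤ 2 * N ∧
    (∀ y ≤ H.sup id, (n + j * d + q * y).Prime ↔ y ∈ H) ∧
    ∀ s ∈ H, n + j * d + q * s ≡ a [MOD q] ∧ V r ((N : ℝ) ^ δ) (n + j * d + q * s)

/-- **A positive proportion of the patterns of consecutive primes of a class.** -/
theorem cls_prop (f : ℤ[X]) (hf : f ≠ 0)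
    (hadm : ∀ p : ℕ, p.Prime → ∃ n : ℤ, ¬ (p : ℤ) ∣ n * f.eval n)
    (q a : ℕ) (hq : Squarefree q)
    (ha : ∀ p : ℕ, p.Prime → p ∣ q → ¬ (p : ℤ) ∣ (a : ℤ) * f.eval (a : ℤ))
    (hroot : ∀ z : ℤ, z ≠ 0 → (q : ℤ) ∣ z → f.eval z ≠ 0) (m : ℕ) (hm : 1 ≤ m)
    (V : ℕ → ℝ → ℕ → Prop) (n₀ : ℕ)
    (hV : ∀ (r : ℕ) (w : ℝ) (p : ℕ), p.Prime → p ≡ a [MOD q] → n₀ ≤ p →
      Pool.Agent.R498.MP.AP r w (f.eval (p : ℤ)) → V r w p) :
    ∃ (C r : ℕ) (δ : ℝ), 0 < C ∧ 0 < δ ∧ ∀ T : Finset ℕ, C ≤ T.card → ∀ l : ℕ,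
      ∃ B : ℕ, ∀ᶠ N : ℕ in atTop,
        T.card.choose m ≤ C * {H : Finset ℕ | H ⊆ T ∧ H.card = m ∧ OccC V q a r δ l B N H}.ncard := by
  classical
  obtain ⟨K, r, δ, hδ, hmain⟩ := cls_strings f hf hadm q a hq ha hroot m
  obtain ⟨K', hK'⟩ : ∃ K', K' = max K m := ⟨_, rfl⟩
  have hKK' : K ≤ K' := by omega
  have hmK' : m ≤ K' := by omega
  refine ⟨max K' (K'.choose m), r, δ, by omega, hδ, fun T hT l => ?_⟩
  have h1 : ∀ S : Finset ℕ, ∃ B : ℕ, K ≤ S.card → ∀ᶠ N : ℕ in atTop, ∃ H ⊆ S, m ≤ H.card ∧ ∃ n d : ℕ, 1 ≤ d ∧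
        (d : ℝ) ≤ Real.log N ^ B ∧ ∀ j < l, N < n + j * d ∧ n + j * d + q * S.sup id ≤ 2 * N ∧
          (∀ y ≤ S.sup id, (n + j * d + q * y).Prime ↔ y ∈ H) ∧
          ∀ h ∈ H, n + j * d + q * h ≡ a [MOD q] ∧
            Pool.Agent.R498.MP.AP r ((N : ℝ) ^ δ) (f.eval ((n + j * d + q * h : ℕ) : ℤ)) := by
    intro S
    by_cases hS : K ≤ S.card
    · obtain ⟨B, hB⟩ := hmain S hS l
      exact ⟨B, fun _ => hB⟩
    · exact ⟨0, fun h => absurd h hS⟩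
  choose B hB using h1
  refine ⟨(T.powerset).sup B, ?_⟩
  have h2 : ∀ᶠ N : ℕ in atTop, ∀ S ∈ T.powerset.filter (fun S => K ≤ S.card),
      ∃ H ⊆ S, m ≤ H.card ∧ ∃ n d : ℕ, 1 ≤ d ∧
        (d : ℝ) ≤ Real.log N ^ (B S) ∧ ∀ j < l, N < n + j * d ∧ n + j * d + q * S.sup id ≤ 2 * N ∧
          (∀ y ≤ S.sup id, (n + j * d + q * y).Prime ↔ y ∈ H) ∧
          ∀ h ∈ H, n + j * d + q * h ≡ a [MOD q] ∧
            Pool.Agent.R498.MP.AP r ((N : ℝ) ^ δ) (f.eval ((n + j * d + q * h : ℕ) : ℤ)) := by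
    rw [Filter.eventually_all_finset]
    intro S hS
    exact hB S (Finset.mem_filter.1 hS).2
  filter_upwards [h2, eventually_ge_atTop 3, eventually_ge_atTop n₀] with N hN hN3 hNn
  have hlog : 1 ≤ Real.log N := by
    rw [Real.le_log_iff_exp_le (by positivity)]
    have h3 : Real.exp 1 < 3 := by
      have := Real.exp_one_lt_d9
      linarith
    have h4 : (3 : ℝ) ≤ N := by exact_mod_cast hN3
    linarith
  have key := Pool.Agent.Helper32K9.Str.proportion hm hmK' T ((le_max_left _ _).trans hT)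
    (fun H => ∃ S ⊆ T, H ⊆ S ∧ ∃ n d : ℕ, 1 ≤ d ∧
        (d : ℝ) ≤ Real.log N ^ (B S) ∧ ∀ j < l, N < n + j * d ∧ n + j * d + q * S.sup id ≤ 2 * N ∧
          (∀ y ≤ S.sup id, (n + j * d + q * y).Prime ↔ y ∈ H) ∧
          ∀ h ∈ H, n + j * d + q * h ≡ a [MOD q] ∧
            Pool.Agent.R498.MP.AP r ((N : ℝ) ^ δ) (f.eval ((n + j * d + q * h : ℕ) : ℤ)))
    (OccC V q a r δ l (T.powerset.sup B) N) ?_ ?_
  · refine key.trans (Nat.mul_le_mul_right _ (le_max_right _ _))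
  · intro S hS hSK
    obtain ⟨H, h3, h4, h5⟩ := hN S (Finset.mem_filter.2 ⟨Finset.mem_powerset.2 hS, by omega⟩)
    exact ⟨H, h3, h4, S, hS, h3, h5⟩
  · rintro H H' ⟨S, hS, hHS, n, d, h3, h4, h5⟩ hH' hcard hy
    have h6 : B S ≤ T.powerset.sup B := Finset.le_sup (f := B) (Finset.mem_powerset.2 hS)
    have h7 : H'.sup id ≤ S.sup id := Finset.sup_mono (hH'.trans hHS)
    have h8 : q * H'.sup id ≤ q * S.sup id := Nat.mul_le_mul_left _ h7
    refine ⟨n, d, h3, h4.trans (pow_le_pow_right₀ hlog h6), fun j hj => ?_⟩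
    obtain ⟨g1, g2, g3, g4⟩ := h5 j hj
    refine ⟨g1, by omega, fun y hys => ⟨fun hp => ?_, fun hyH => (g3 y (by omega)).2 (hH' hyH)⟩,
      fun h hh => ?_⟩
    · exact hy y ((g3 y (by omega)).1 hp) hys
    · obtain ⟨g5, g6⟩ := g4 h (hH' hh)
      have hle : h ≤ S.sup id := Finset.le_sup (f := id) (hHS (hH' hh))
      exact ⟨g5, hV _ _ _ ((g3 h hle).2 (hH' hh)) g5 (by omega) g6⟩

end Pool.Agent.U364.ST
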